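import Pool.Agent.L5helper84.QMU.Unif

set_option autoImplicit false

/-!
The moments of all the initial pieces of the family with one exceptional set: assembly.
-/

namespace Pool.Agent.L5helper84.QMU

open Complex Filter Topology MeasureTheory Set Pool.Agent.N879.QM

noncomputable section

variable {k : ℕ}

theorem t_UMAIN (hV : S_VL) (hO : S_OP) (hT : S_TEL) (hc : S_CTS) (hD : S_DIAG) (hC : S_COEF) (hZ : S_ZR)
    (hE : S_EUL) (hN : S_NS) (k : ℕ) (s : ℤ) (θ : ℝ) (hk : 1 ≤ k) (hs : s = 1 ∨ s = -1) (hθ : 1 < θ) :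
    ∃ δ X₀ : ℝ, 0 < δ ∧ ∀ X : ℝ, X₀ ≤ X →
      mS k (X ^ θ) {β | ∃ Y : ℝ, 0 ≤ Y ∧ Y ≤ X ∧ X ^ (1 - δ) < ‖er s Y β‖} ≤ ENNReal.ofReal (X ^ (k * θ - δ)) := by
  obtain ⟨CD, hCD, hD⟩ := hD k
  obtain ⟨CN, hCN, hN⟩ := hN k
  obtain ⟨m₀, hE3⟩ := E3 hC hZ hE hk hθ.le
  set m : ℕ := m₀ + 8 * k + 1 with hm
  have hm1 : 1 ≤ m := by omega
  have hm0 : (0 : ℝ) < m := by exact_mod_cast hm1
  obtain ⟨C3, X3, hC3, hE3⟩ := hE3 m (by omega) hm1
  set η : ℝ := 1 / m with hη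
  have hη0 : 0 < η := by positivity
  have hη1 : η ≤ 1 := by
    rw [hη, div_le_one hm0]; exact_mod_cast hm1
  have hk0 : (0 : ℝ) < k := by exact_mod_cast hk
  have hkη : k * η ≤ 1 / 8 := by
    rw [hη, mul_one_div, div_le_div_iff₀ hm0 (by norm_num)]
    have : k * 8 ≤ 1 * m := by omega
    exact_mod_cast this
  set κ : ℝ := min (η / 2) (θ - 1) with hκ
  have hκ0 : 0 < κ := lt_min (by positivity) (by linarith)
  have hκ1 : κ ≤ η / 2 := min_le_left _ _
  have hκ2 : κ ≤ θ - 1 := min_le_right _ _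
  obtain ⟨C1, hC1, hE1⟩ := E1U hV hO hT hc hk hθ hη1 hκ0 hκ1 hκ2
  set δ : ℝ := κ / 32 with hδ
  have hδ0 : 0 < δ := by positivity
  have hδ1 : δ ≤ 1 / 64 := by rw [hδ]; linarith
  obtain ⟨C4, hC4, hZB⟩ := ZB (k := k) hV hc hk hθ.le (ε := 2 * δ) (by positivity)
  have hc0 : 0 < c0 := by unfold c0; positivity
  -- large X
  have ev1 : ∀ᶠ X : ℝ in atTop, 24 * CD ≤ X ^ (3 / 8 - δ : ℝ) :=
    (tendsto_rpow_atTop (by linarith)).eventually_ge_atTop _
  have ev2 : ∀ᶠ X : ℝ in atTop, CN + C4 + 1152 * C1 + 576 * c0 ^ 2 * C3 ≤ X ^ δ :=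
    (tendsto_rpow_atTop hδ0).eventually_ge_atTop _
  have ev3 : ∀ᶠ X : ℝ in atTop, 128 ≤ X ^ (2 * δ) :=
    (tendsto_rpow_atTop (by positivity)).eventually_ge_atTop _
  have ev4 : ∀ᶠ X : ℝ in atTop, 2 ≤ X ^ (1 - 8 * δ) :=
    (tendsto_rpow_atTop (by linarith)).eventually_ge_atTop _
  obtain ⟨X₀, hX₀⟩ := eventually_atTop.1 (((ev1.and ev2).and (ev3.and ev4)).and
    ((eventually_ge_atTop X3).and (eventually_ge_atTop 2)))
  refine ⟨δ, X₀, hδ0, ?_⟩
  intro X hX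
  obtain ⟨⟨⟨v1, v2⟩, v5, v6⟩, v3, v4⟩ := hX₀ X hX
  have hX0 : 0 < X := by linarith
  have hX1 : 1 ≤ X := by linarith
  set A : ℝ := X ^ θ with hA
  have hXA : X ≤ A := by
    rw [hA]
    calc X = X ^ (1 : ℝ) := (Real.rpow_one X).symm
      _ ≤ X ^ θ := Real.rpow_le_rpow_of_exponent_le hX1 hθ.le
  have hA1 : 1 ≤ A := by linarith
  set N : ℕ := ⌊X ^ η⌋₊ with hNd
  obtain ⟨f1, f2, f3⟩ := floor_half (Real.one_le_rpow hX1 hη0.le : 1 ≤ X ^ η)
  rw [← hNd] at f1 f2 f3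
  have hN0 : (0 : ℝ) < N := by exact_mod_cast f3
  have hNX : (N : ℝ) ≤ X := by
    refine f2.trans ?_
    calc X ^ η ≤ X ^ (1 : ℝ) := Real.rpow_le_rpow_of_exponent_le hX1 hη1
      _ = X := Real.rpow_one X
  -- the grid
  set R : ℕ := ⌈X ^ (8 * δ)⌉₊ with hR
  have hXl1 : 1 ≤ X ^ (8 * δ) := Real.one_le_rpow hX1 (by positivity)
  have r1 : X ^ (8 * δ) ≤ R := Nat.le_ceil _
  have r2 : (R : ℝ) ≤ 2 * X ^ (8 * δ) := by
    have : (R : ℝ) < X ^ (8 * δ) + 1 := Nat.ceil_lt_add_one (by positivity)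
    linarith
  have r0 : (0 : ℝ) < R := by linarith
  have r3 : (R : ℝ) ≤ X := by
    refine r2.trans ?_
    calc 2 * X ^ (8 * δ) ≤ X ^ (1 - 8 * δ) * X ^ (8 * δ) := by gcongr
      _ = X := by rw [← Real.rpow_add hX0]; ring_nf; exact Real.rpow_one X
  have hRn : 1 ≤ R := by
    have : (0 : ℝ) < R := r0
    exact_mod_cast this
  set y : ℕ → ℝ := fun i => i * (X / R) with hy
  have hXR : 1 ≤ X / R := by rw [le_div_iff₀ r0]; linarith
  have y1 : ∀ i ∈ Finset.Icc 1 R, 1 ≤ y i ∧ y i ≤ X := by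
    intro i hi
    rw [Finset.mem_Icc] at hi
    have h1 : (1 : ℝ) ≤ i := by exact_mod_cast hi.1
    have h2 : (i : ℝ) ≤ R := by exact_mod_cast hi.2
    refine ⟨?_, ?_⟩
    · simp only [hy]
      calc (1 : ℝ) = 1 * 1 := by ring
        _ ≤ i * (X / R) := mul_le_mul h1 hXR (by norm_num) (by linarith)
    · simp only [hy]
      rw [mul_div_assoc', div_le_iff₀ r0]
      nlinarith
  -- the diagonal error
  have g2 : ∀ (Y : ℝ), 1 ≤ Y → Y ≤ X → ∀ β : Fin k → ℝ,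
      ‖(∑ q ∈ Q s Y, ∏ j, PN s q N (β j)) - ((c0 * Y : ℝ) : ℂ) * SN k N β‖ ≤ X ^ (1 - δ) / 24 := by
    intro Y hY hYX β
    refine (hD s Y N β hs hY f3).trans ?_
    have h1 : (N : ℝ) ^ k ≤ X ^ (1 / 8 : ℝ) := by
      calc (N : ℝ) ^ k ≤ (X ^ η) ^ k := pow_le_pow_left₀ hN0.le f2 _
        _ = X ^ (k * η) := by rw [← Real.rpow_natCast, ← Real.rpow_mul hX0.le]; congr 1; ring
        _ ≤ X ^ (1 / 8 : ℝ) := Real.rpow_le_rpow_of_exponent_le hX1 hkη
    have h2 : √X = X ^ (1 / 2 : ℝ) := Real.sqrt_eq_rpow X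
    have h4 : √Y ≤ X ^ (1 / 2 : ℝ) := by rw [← h2]; exact Real.sqrt_le_sqrt hYX
    have h3 : X ^ (1 - δ) = X ^ (3 / 8 - δ : ℝ) * (X ^ (1 / 2 : ℝ) * X ^ (1 / 8 : ℝ)) := by
      rw [← Real.rpow_add hX0, ← Real.rpow_add hX0]; congr 1; ring
    rw [h3, le_div_iff₀ (by norm_num)]
    calc CD * √Y * (N : ℝ) ^ k * 24 ≤ CD * X ^ (1 / 2 : ℝ) * X ^ (1 / 8 : ℝ) * 24 := by gcongr
      _ = 24 * CD * (X ^ (1 / 2 : ℝ) * X ^ (1 / 8 : ℝ)) := by ring
      _ ≤ X ^ (3 / 8 - δ : ℝ) * (X ^ (1 / 2 : ℝ) * X ^ (1 / 8 : ℝ)) := by gcongr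
  -- the sets
  set D1 : ℕ → (Fin k → ℝ) → ℂ := fun i β => ∑ q ∈ Q s (y i), (∏ j, LL s q (pt (β j)) - ∏ j, PN s q N (β j))
    with hD1
  set D3 : (Fin k → ℝ) → ℂ := fun β => SN k N β - MT (im β) with hD3
  have hXδ : 0 < X ^ (1 - δ) / 24 := by positivity
  have hlam3 : 0 < X ^ (-δ) / (24 * c0) := by positivity
  have hlam4 : 0 < X ^ (1 + 4 * δ) := by positivity
  have hsub : {β : Fin k → ℝ | ∃ Y : ℝ, 0 ≤ Y ∧ Y ≤ X ∧ X ^ (1 - δ) < ‖er s Y β‖} ⊆
      (Gd k A)ᶜ ∪ (({β | X ^ (1 + 4 * δ) < ZZ s X β}) ∪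
        ((⋃ i ∈ Finset.Icc 1 R, {β | X ^ (1 - δ) / 24 < ‖D1 i β‖}) ∪
        ({β | X ^ (-δ) / (24 * c0) < ‖D3 β‖} ∩ Gd k A))) := by
    intro β hβ
    by_contra hcon
    simp only [mem_union, mem_compl_iff, mem_inter_iff, not_or, not_and, not_not, mem_iUnion, not_exists] at hcon
    obtain ⟨h1, h4, h2, h3⟩ := hcon
    have h2' : ∀ i ∈ Finset.Icc 1 R, ‖D1 i β‖ ≤ X ^ (1 - δ) / 24 := fun i hi => not_lt.1 (h2 i hi)
    have h4' : ZZ s X β ≤ X ^ (1 + 4 * δ) := not_lt.1 h4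
    have h3' : ‖D3 β‖ ≤ X ^ (-δ) / (24 * c0) := by
      by_contra hh
      exact (h3 (not_le.1 hh)) h1
    -- the grid points
    have T1 : ∀ i : ℕ, i ≤ R → ‖er s (y i) β‖ ≤ X ^ (1 - δ) / 8 := by
      intro i hi
      rcases Nat.eq_zero_or_pos i with h0 | h0
      · have : y i = 0 := by simp [hy, h0]
        rw [this]
        unfold er
        rw [Q_zero]
        simp only [Finset.sum_empty, mul_zero, Complex.ofReal_zero, zero_mul, sub_zero, norm_zero]
        positivity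
      · have hi' : i ∈ Finset.Icc 1 R := Finset.mem_Icc.2 ⟨h0, hi⟩
        obtain ⟨a1, a2⟩ := y1 i hi'
        have e : er s (y i) β =
            D1 i β + ((∑ q ∈ Q s (y i), ∏ j, PN s q N (β j)) - ((c0 * y i : ℝ) : ℂ) * SN k N β) +
              ((c0 * y i : ℝ) : ℂ) * D3 β := by
          simp only [er, hD1, hD3, Finset.sum_sub_distrib]
          ring
        have h4 : ‖((c0 * y i : ℝ) : ℂ) * D3 β‖ ≤ X ^ (1 - δ) / 24 := by
          rw [norm_mul, Complex.norm_real, Real.norm_of_nonneg (by positivity)]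
          calc c0 * y i * ‖D3 β‖ ≤ c0 * X * (X ^ (-δ) / (24 * c0)) := by gcongr
            _ = X ^ (-δ) * X / 24 := by field_simp
            _ = X ^ (1 - δ) / 24 := by
                nth_rewrite 2 [← Real.rpow_one X]
                rw [← Real.rpow_add hX0]; congr 2; ring
        rw [e]
        refine (norm_add_le _ _).trans ?_
        have := norm_add_le (D1 i β) ((∑ q ∈ Q s (y i), ∏ j, PN s q N (β j)) - ((c0 * y i : ℝ) : ℂ) * SN k N β)
        linarith [g2 (y i) a1 a2 β, h2' i hi']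
    obtain ⟨Y, hY0, hYX, hY⟩ := hβ
    set i : ℕ := ⌈Y * R / X⌉₊ with hi
    have i1 : Y * R / X ≤ i := Nat.le_ceil _
    have i2 : (i : ℝ) < Y * R / X + 1 := Nat.ceil_lt_add_one (by positivity)
    have i3 : i ≤ R := by
      apply Nat.ceil_le.2
      rw [div_le_iff₀ hX0]
      nlinarith
    have i4 : Y ≤ y i := by
      simp only [hy]
      rw [div_le_iff₀ hX0] at i1
      rw [mul_div_assoc', le_div_iff₀ r0]
      linarith
    have i5 : y (i - 1) ≤ Y := by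
      rcases Nat.eq_zero_or_pos i with h0 | h0
      · simp [hy, h0, hY0]
      · simp only [hy]
        rw [Nat.cast_sub h0]
        push_cast
        have : (i : ℝ) - 1 < Y * R / X := by linarith
        rw [lt_div_iff₀ hX0] at this
        rw [mul_div_assoc', div_le_iff₀ r0]
        linarith
    have i6 : y i - y (i - 1) ≤ X / R := by
      rcases Nat.eq_zero_or_pos i with h0 | h0
      · simp only [hy, h0]
        simp
        positivity
      · simp only [hy]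
        rw [Nat.cast_sub h0]
        push_cast
        linarith
    have i7 : 0 ≤ y (i - 1) := by simp only [hy]; positivity
    have i8 : y i ≤ X := by
      simp only [hy]
      have : (i : ℝ) ≤ R := by exact_mod_cast i3
      rw [mul_div_assoc', div_le_iff₀ r0]
      nlinarith
    have fin := gap (s := s) (X := X) (T := X ^ (1 - δ) / 8) (W := X ^ (1 - δ) / 8) (β := β) i7 i5 i4 i8
      (T1 (i - 1) (by omega)) (T1 i i3) (by
        have j1 : y i - y (i - 1) + 1 ≤ 2 * X ^ (1 - 8 * δ) := by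
          have j2 : X / R ≤ X ^ (1 - 8 * δ) := by
            rw [div_le_iff₀ r0]
            calc X = X ^ (1 - 8 * δ) * X ^ (8 * δ) := by
                  rw [← Real.rpow_add hX0]; ring_nf; exact (Real.rpow_one X).symm
              _ ≤ X ^ (1 - 8 * δ) * R := by gcongr
          linarith
        have j3 : (y i - y (i - 1) + 1) * ZZ s X β ≤ 2 * X ^ (1 - 8 * δ) * X ^ (1 + 4 * δ) :=
          mul_le_mul j1 h4' (ZZ_nonneg s X β) (by positivity)
        refine j3.trans ?_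
        have j4 : (X ^ (1 - δ) / 8) ^ 2 = X ^ (2 * δ) * (X ^ (1 - 8 * δ) * X ^ (1 + 4 * δ)) / 64 := by
          rw [div_pow, ← Real.rpow_natCast (X ^ (1 - δ)), ← Real.rpow_mul hX0.le, ← Real.rpow_add hX0,
            ← Real.rpow_add hX0]
          norm_num
          congr 1
          ring
        rw [j4]
        have j5 : 0 < X ^ (1 - 8 * δ) * X ^ (1 + 4 * δ) := by positivity
        rw [le_div_iff₀ (by norm_num)]
        nlinarith) (by positivity)
    have hpos : 0 < X ^ (1 - δ) := by positivity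
    linarith
  refine (measure_mono hsub).trans ?_
  refine (measure_union_le _ _).trans ((add_le_add_right ((measure_union_le _ _).trans
    (add_le_add_right (measure_union_le _ _) _)) _).trans ?_)
  have m1 : mS k A (Gd k A)ᶜ ≤ ENNReal.ofReal (CN * X ^ (k * θ - 2 * δ)) := by
    refine (hN A hA1).trans (ENNReal.ofReal_le_ofReal ?_)
    apply mul_le_mul_of_nonneg_left _ hCN.le
    rw [hA, ← Real.rpow_mul hX0.le]
    apply Real.rpow_le_rpow_of_exponent_le hX1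
    nlinarith
  have m4 : mS k A {β | X ^ (1 + 4 * δ) < ZZ s X β} ≤ ENNReal.ofReal (C4 * X ^ (k * θ - 2 * δ)) := by
    have hm1 : Measurable fun β : Fin k → ℝ => ENNReal.ofReal (ZZ s X β) :=
      (ZZ_cont hc s X).measurable.ennreal_ofReal
    have h2 := meas_ge_le_lintegral_div (μ := mS k A) hm1.aemeasurable (ε := ENNReal.ofReal (X ^ (1 + 4 * δ)))
      (by rw [Ne, ENNReal.ofReal_eq_zero, not_le]; positivity) ENNReal.ofReal_ne_top
    refine (measure_mono ?_).trans (h2.trans ?_)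
    · intro x hx
      exact ENNReal.ofReal_le_ofReal (le_of_lt hx)
    · refine (ENNReal.div_le_div_right (hZB s X v4) _).trans ?_
      rw [← ENNReal.ofReal_div_of_pos hlam4]
      apply ENNReal.ofReal_le_ofReal
      rw [div_le_iff₀ hlam4, mul_assoc, ← Real.rpow_add hX0]
      apply le_of_eq
      congr 2
      ring
  have m2 : mS k A (⋃ i ∈ Finset.Icc 1 R, {β | X ^ (1 - δ) / 24 < ‖D1 i β‖}) ≤
      ENNReal.ofReal (1152 * C1 * X ^ (k * θ - 2 * δ)) := by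
    have n1 : ∀ i ∈ Finset.Icc 1 R, mS k A {β | X ^ (1 - δ) / 24 < ‖D1 i β‖} ≤
        ENNReal.ofReal (576 * C1 * X ^ (k * θ - 14 * δ)) := by
      intro i hi
      obtain ⟨a1, a2⟩ := y1 i hi
      refine (cheb (g := fun β => ‖D1 i β‖) (D1_cont hc s (y i) N).norm.aemeasurable hXδ
        (hE1 s X (y i) N hs v4 a1 a2 f1 hNX f3)).trans (ENNReal.ofReal_le_ofReal (le_of_eq ?_))
      have e1 : (X ^ (1 - δ) / 24) ^ 2 = X ^ (2 - 2 * δ) / 576 := by
        rw [div_pow, ← Real.rpow_natCast, ← Real.rpow_mul hX0.le]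
        norm_num
        congr 1; ring
      rw [e1]
      have e2 : X ^ (k * θ + 2 - κ / 2) = X ^ (k * θ - 14 * δ) * X ^ (2 - 2 * δ) := by
        rw [← Real.rpow_add hX0]; congr 1; rw [hδ]; ring
      rw [e2]
      have : 0 < X ^ (2 - 2 * δ) := by positivity
      field_simp
    refine (measure_biUnion_finset_le _ _).trans ((Finset.sum_le_sum n1).trans ?_)
    rw [Finset.sum_const, nsmul_eq_mul, ← ENNReal.ofReal_natCast, ← ENNReal.ofReal_mul (by positivity)]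
    apply ENNReal.ofReal_le_ofReal
    rw [Nat.card_Icc, Nat.add_sub_cancel]
    calc (R : ℝ) * (576 * C1 * X ^ (k * θ - 14 * δ)) ≤ (2 * X ^ (8 * δ)) * (576 * C1 * X ^ (k * θ - 14 * δ)) := by
          gcongr
      _ = 1152 * C1 * (X ^ (8 * δ) * X ^ (k * θ - 14 * δ)) := by ring
      _ ≤ 1152 * C1 * X ^ (k * θ - 2 * δ) := by
          rw [← Real.rpow_add hX0]
          apply mul_le_mul_of_nonneg_left _ (by positivity)
          apply Real.rpow_le_rpow_of_exponent_le hX1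
          linarith
  have g3 := hE3 X N v3 v4 f1 f2 f3
  have m3 : mS k A ({β | X ^ (-δ) / (24 * c0) < ‖D3 β‖} ∩ Gd k A) ≤
      ENNReal.ofReal (576 * c0 ^ 2 * C3 * X ^ (k * θ - 2 * δ)) := by
    rw [← Measure.restrict_apply' (Gd_meas k A)]
    have hmD : Measurable D3 := (meas_SN N).sub (meas_MT hE)
    refine (cheb (g := fun β => ‖D3 β‖) hmD.norm.aemeasurable hlam3 g3).trans
      (ENNReal.ofReal_le_ofReal ?_)
    have e1 : (X ^ (-δ) / (24 * c0)) ^ 2 = X ^ (-(2 * δ)) / (576 * c0 ^ 2) := by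
      rw [div_pow, ← Real.rpow_natCast, ← Real.rpow_mul hX0.le]
      norm_num
      rw [mul_pow]; norm_num
      congr 2; ring
    rw [e1]
    have e2 : X ^ (k * θ - 1 / (4 * m)) ≤ X ^ (k * θ - 2 * δ) * X ^ (-(2 * δ)) := by
      rw [← Real.rpow_add hX0]
      apply Real.rpow_le_rpow_of_exponent_le hX1
      have : 1 / (4 * m : ℝ) = η / 4 := by rw [hη]; field_simp
      rw [this, hδ]
      linarith
    have e3 : 0 < X ^ (-(2 * δ)) := by positivity
    rw [div_le_iff₀ (by positivity)]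
    calc C3 * X ^ (k * θ - 1 / (4 * m)) ≤ C3 * (X ^ (k * θ - 2 * δ) * X ^ (-(2 * δ))) := by gcongr
      _ = 576 * c0 ^ 2 * C3 * X ^ (k * θ - 2 * δ) * (X ^ (-(2 * δ)) / (576 * c0 ^ 2)) := by
          field_simp
  refine (add_le_add m1 (add_le_add m4 (add_le_add m2 m3))).trans ?_
  rw [← ENNReal.ofReal_add (by positivity) (by positivity), ← ENNReal.ofReal_add (by positivity) (by positivity),
    ← ENNReal.ofReal_add (by positivity) (by positivity)]
  apply ENNReal.ofReal_le_ofReal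
  calc CN * X ^ (k * θ - 2 * δ) + (C4 * X ^ (k * θ - 2 * δ) +
        (1152 * C1 * X ^ (k * θ - 2 * δ) + 576 * c0 ^ 2 * C3 * X ^ (k * θ - 2 * δ)))
      = (CN + C4 + 1152 * C1 + 576 * c0 ^ 2 * C3) * X ^ (k * θ - 2 * δ) := by ring
    _ ≤ X ^ δ * X ^ (k * θ - 2 * δ) := by gcongr
    _ = X ^ (k * θ - δ) := by rw [← Real.rpow_add hX0]; congr 1; ring

/-- the moments of all the initial pieces of the family, one exceptional set -/
theorem umain (k : ℕ) (s : ℤ) (θ : ℝ) (hk : 1 ≤ k) (hs : s = 1 ∨ s = -1) (hθ : 1 < θ) :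
    ∃ δ X₀ : ℝ, 0 < δ ∧ ∀ X : ℝ, X₀ ≤ X →
      mS k (X ^ θ) {β | ∃ Y : ℝ, 0 ≤ Y ∧ Y ≤ X ∧ X ^ (1 - δ) < ‖er s Y β‖} ≤ ENNReal.ofReal (X ^ (k * θ - δ)) := by
  have hU := t_UNI
  have hA := t_AVG hU
  have hD := t_DIAG hA
  have hG := t_GK hU
  have hP1 := t_P1
  have hP2 := t_P2 hG
  have hM := t_MVG
  have hB := t_BLK hM
  have hL := t_LSB
  have hT := t_TRV
  have hO := t_ONE
  have hBIG := t_BIG hB hL hT
  have hBIG1 := t_BIG1 hB hO hT
  have hAF := t_AFS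
  have hC := t_CTS
  have hV := t_VL hP1 hBIG1 hAF hC
  have hOP := t_OP hP2 hBIG hAF hC
  have hTE := t_TEL
  have hE := t_EUL
  have hZR := t_ZR t_ZET hE
  have hFL := t_FL
  have hCO := t_COEF hFL
  exact t_UMAIN hV hOP hTE hC hD hCO hZR hE t_NS k s θ hk hs hθ

end

end Pool.Agent.L5helper84.QMU
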