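import Pool.Agent.N879.QM.All

set_option autoImplicit false

/-!
Uniformity in the length of the family: the moments of all the initial pieces `|d| < Y`, `Y ≤ X`, of the family with one
exceptional set of shift vectors. Uses the parts of the starting project QM (`Pool.Agent.N879.QM`).
-/

namespace Pool.Agent.L5helper84.QMU

open Complex Filter Topology MeasureTheory Set Pool.Agent.N879.QM

noncomputable section

variable {k : ℕ}

lemma Q_mono {s : ℤ} {Y X : ℝ} (h : Y ≤ X) : Q s Y ⊆ Q s X := by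
  classical
  unfold Q
  apply Finset.filter_subset_filter
  exact Finset.Ico_subset_Ico le_rfl (Nat.ceil_mono h)

lemma Q_zero {s : ℤ} : Q s 0 = ∅ := by
  classical
  unfold Q
  simp

lemma Q_gap {s : ℤ} {Y X : ℝ} (hY : 0 ≤ Y) (h : Y ≤ X) :
    (((Q s X) \ (Q s Y)).card : ℝ) ≤ X - Y + 1 := by
  classical
  have h1 : (Q s X) \ (Q s Y) ⊆ Finset.Ico ⌈Y⌉₊ ⌈X⌉₊ := by
    intro q hq
    rw [Finset.mem_sdiff] at hq
    obtain ⟨h1, h2⟩ := hq
    unfold Q at h1 h2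
    rw [Finset.mem_filter, Finset.mem_Ico] at h1 h2
    rw [Finset.mem_Ico]
    refine ⟨?_, h1.1.2⟩
    by_contra h3
    exact h2 ⟨⟨h1.1.1, not_le.1 h3⟩, h1.2⟩
  have h2 := Finset.card_le_card h1
  rw [Nat.card_Ico] at h2
  have h3 : ⌈Y⌉₊ ≤ ⌈X⌉₊ := Nat.ceil_mono h
  have h4 : (((Q s X) \ (Q s Y)).card : ℝ) ≤ (⌈X⌉₊ : ℝ) - ⌈Y⌉₊ := by
    have : (((Q s X) \ (Q s Y)).card : ℝ) ≤ ((⌈X⌉₊ - ⌈Y⌉₊ : ℕ) : ℝ) := by exact_mod_cast h2
    rwa [Nat.cast_sub h3] at this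
  have h5 : (⌈X⌉₊ : ℝ) < X + 1 := Nat.ceil_lt_add_one (by linarith)
  have h6 : Y ≤ (⌈Y⌉₊ : ℝ) := Nat.le_ceil Y
  linarith

/-- the first mean square, for all the initial pieces of the family -/
lemma E1U (hV : S_VL) (hO : S_OP) (hT : S_TEL) (hc : S_CTS) (hk : 1 ≤ k) {θ η κ : ℝ} (hθ : 1 < θ)
    (hη1 : η ≤ 1) (hκ : 0 < κ) (hκ1 : κ ≤ η / 2) (hκ2 : κ ≤ θ - 1) :
    ∃ C : ℝ, 0 < C ∧ ∀ (s : ℤ) (X Y : ℝ) (N : ℕ), s = 1 ∨ s = -1 → 2 ≤ X → 1 ≤ Y → Y ≤ X → X ^ η / 2 ≤ N →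
      (N : ℝ) ≤ X → 1 ≤ N →
      ∫⁻ β, ENNReal.ofReal (‖∑ q ∈ Q s Y, (∏ j, LL s q (pt (β j)) - ∏ j, PN s q N (β j))‖ ^ 2) ∂(mS k (X ^ θ)) ≤
        ENNReal.ofReal (C * X ^ (k * θ + 2 - κ / 2)) := by
  have hk0 : (0 : ℝ) < k := by exact_mod_cast hk
  have hθ0 : 0 < θ := by linarith
  set ε : ℝ := κ / (2 * k * θ) with hε
  have hε0 : 0 < ε := by positivity
  obtain ⟨CO, hCO, hO⟩ := hO ε hε0
  obtain ⟨CV, hCV, hV⟩ := hV ε hε0
  refine ⟨4 ^ k * CO * CV ^ (k - 1) * 4, by positivity, ?_⟩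
  intro s X Y N hs hX hY hYX hN hNX hN1
  have hX0 : 0 < X := by linarith
  have hX1 : 1 ≤ X := by linarith
  set A : ℝ := X ^ θ with hA
  have hXA : X ≤ A := by
    rw [hA]
    calc X = X ^ (1 : ℝ) := (Real.rpow_one X).symm
      _ ≤ X ^ θ := Real.rpow_le_rpow_of_exponent_le hX1 hθ.le
  have hA0 : 0 < A := by linarith
  have hA2 : 2 ≤ A := by linarith
  have hN0 : (0 : ℝ) < N := by exact_mod_cast hN1
  set K0 : ℝ := CO * A ^ (1 + ε) * (X / √N + X ^ 2 / A + 1) with hK0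
  set V0 : ℝ := CV * A ^ (1 + ε) with hV0
  have hK0' : 0 ≤ K0 := by positivity
  have hV0' : 0 ≤ V0 := by positivity
  have h1 := hT k (Q s Y) (fun q α => LL s q (pt α)) (fun q => PN s q N) A K0 V0 hA0 hK0' hV0'
    (fun q hq => hc s q (Q_is hq).1) (fun q _ => PN_cont s q N)
    (fun c => by
      have h2 := hO s Y A N c hs hY (hYX.trans hXA) hA2 hN1
      refine h2.trans ?_
      have h3 : 0 ≤ ∑ q ∈ Q s Y, ‖c q‖ ^ 2 := Finset.sum_nonneg fun q _ => by positivity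
      have h4 : Y / √N + Y ^ 2 / A + 1 ≤ X / √N + X ^ 2 / A + 1 := by
        have h5 : Y ^ 2 ≤ X ^ 2 := pow_le_pow_left₀ (by linarith) hYX 2
        gcongr
      rw [hK0]
      exact mul_le_mul_of_nonneg_right (mul_le_mul_of_nonneg_left h4 (by positivity)) h3)
    (fun q hq => (hV s q A (Q_is hq).1 (by linarith [(Q_is hq).2]) hA2).1)
    (fun q hq => (hV s q A (Q_is hq).1 (by linarith [(Q_is hq).2]) hA2).2 N hN1 (by linarith))
  refine h1.trans (ENNReal.ofReal_le_ofReal ?_)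
  -- numbers
  have e1 : X / √N ≤ 2 * X ^ (1 - κ) := by
    have h2 : √(X ^ η / 2) ≤ √N := Real.sqrt_le_sqrt hN
    have h3 : 0 < √(X ^ η / 2) := Real.sqrt_pos.2 (by positivity)
    have h4 : X ^ κ / 2 ≤ √(X ^ η / 2) := by
      apply Real.le_sqrt_of_sq_le
      have h5 : (X ^ κ) ^ 2 ≤ X ^ η := by
        rw [← Real.rpow_natCast, ← Real.rpow_mul hX0.le]
        apply Real.rpow_le_rpow_of_exponent_le hX1
        push_cast; linarith
      have : (X ^ κ / 2) ^ 2 = (X ^ κ) ^ 2 / 4 := by ring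
      rw [this]
      have : 0 < X ^ η := by positivity
      linarith
    rw [div_le_iff₀ (by linarith)]
    have h6 : X = X ^ (1 - κ) * X ^ κ := by
      rw [← Real.rpow_add hX0]; ring_nf; exact (Real.rpow_one X).symm
    have h7 : 0 < X ^ (1 - κ) := by positivity
    calc X = 2 * X ^ (1 - κ) * (X ^ κ / 2) := by rw [mul_assoc]; nth_rewrite 1 [h6]; ring
      _ ≤ 2 * X ^ (1 - κ) * √N := by
          apply mul_le_mul_of_nonneg_left _ (by positivity)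
          linarith
  have e2 : X ^ 2 / A ≤ X ^ (1 - κ) := by
    rw [hA, ← Real.rpow_natCast X 2, ← Real.rpow_sub hX0]
    apply Real.rpow_le_rpow_of_exponent_le hX1
    push_cast; linarith
  have e3 : (1 : ℝ) ≤ X ^ (1 - κ) := Real.one_le_rpow hX1 (by linarith)
  have e4 : X / √N + X ^ 2 / A + 1 ≤ 4 * X ^ (1 - κ) := by linarith
  have e5 : K0 * V0 ^ (k - 1) ≤ CO * CV ^ (k - 1) * (A ^ (1 + ε)) ^ k * (4 * X ^ (1 - κ)) := by
    have h2 : (A ^ (1 + ε)) ^ k = A ^ (1 + ε) * (A ^ (1 + ε)) ^ (k - 1) := by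
      rw [← pow_succ']; congr 1; omega
    rw [hK0, hV0, mul_pow, h2]
    have : CO * A ^ (1 + ε) * (X / √N + X ^ 2 / A + 1) * (CV ^ (k - 1) * (A ^ (1 + ε)) ^ (k - 1)) =
      CO * CV ^ (k - 1) * (A ^ (1 + ε) * (A ^ (1 + ε)) ^ (k - 1)) * (X / √N + X ^ 2 / A + 1) := by ring
    rw [this]
    exact mul_le_mul_of_nonneg_left e4 (by positivity)
  have e6 : (A ^ (1 + ε)) ^ k = X ^ (k * θ + κ / 2) := by
    rw [hA, ← Real.rpow_natCast, ← Real.rpow_mul hX0.le, ← Real.rpow_mul hX0.le]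
    congr 1
    rw [hε]
    field_simp
  have e7 : ((Q s Y).card : ℝ) ≤ X := (Q_card hY).trans hYX
  have e8 : X ^ (k * θ + κ / 2) * X ^ (1 - κ) * X = X ^ (k * θ + 2 - κ / 2) := by
    nth_rewrite 3 [← Real.rpow_one X]
    rw [← Real.rpow_add hX0, ← Real.rpow_add hX0]
    congr 1; ring
  calc 4 ^ k * K0 * V0 ^ (k - 1) * ((Q s Y).card : ℝ) = 4 ^ k * (K0 * V0 ^ (k - 1)) * ((Q s Y).card : ℝ) := by ring
    _ ≤ 4 ^ k * (CO * CV ^ (k - 1) * (A ^ (1 + ε)) ^ k * (4 * X ^ (1 - κ))) * X := by gcongr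
    _ = 4 ^ k * CO * CV ^ (k - 1) * 4 * (X ^ (k * θ + κ / 2) * X ^ (1 - κ) * X) := by rw [e6]; ring
    _ = _ := by rw [e8]

/-- the square sum of the products over the family -/
def ZZ (s : ℤ) (X : ℝ) (β : Fin k → ℝ) : ℝ := ∑ q ∈ Q s X, ∏ j, ‖LL s q (pt (β j))‖ ^ 2

lemma ZZ_nonneg (s : ℤ) (X : ℝ) (β : Fin k → ℝ) : 0 ≤ ZZ s X β :=
  Finset.sum_nonneg fun q _ => Finset.prod_nonneg fun j _ => by positivity

lemma ZZ_cont (hc : S_CTS) (s : ℤ) (X : ℝ) : Continuous fun β : Fin k → ℝ => ZZ s X β := by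
  unfold ZZ
  refine continuous_finset_sum _ fun q hq => continuous_finset_prod _ fun j _ => ?_
  exact (((hc s q (Q_is hq).1).comp (continuous_apply j)).norm).pow 2

/-- the integral of a product of functions of one variable over the cube -/
lemma lint_pow {A V : ℝ} (hA : 0 < A) {f : ℝ → ℝ} (hf : Continuous f) (h0 : ∀ x, 0 ≤ f x)
    (h : ∫ x in (-A)..A, f x ≤ V) :
    ∫⁻ β : Fin k → ℝ, ENNReal.ofReal (∏ j, f (β j)) ∂(mS k A) ≤ ENNReal.ofReal (V ^ k) := by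
  have hi : Integrable f (volume.restrict (Icc (-A) A)) := hf.continuousOn.integrableOn_Icc
  have hI : Integrable (fun β : Fin k → ℝ => ∏ j, f (β j)) (mS k A) := by
    unfold mS
    exact Integrable.fintype_prod (fun _ => hi)
  rw [← ofReal_integral_eq_lintegral_ofReal hI
    (Filter.Eventually.of_forall fun β => Finset.prod_nonneg fun j _ => h0 (β j))]
  apply ENNReal.ofReal_le_ofReal
  have h1 : ∫ β : Fin k → ℝ, ∏ j, f (β j) ∂(mS k A) = (∫ x in Icc (-A) A, f x) ^ k := by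
    unfold mS
    have := integral_fintype_prod_eq_pow (ι := Fin k) (μ := (volume.restrict (Icc (-A) A) : Measure ℝ)) f
    rw [Fintype.card_fin] at this
    exact this
  rw [h1, integral_Icc_eq_integral_Ioc, ← intervalIntegral.integral_of_le (by linarith)]
  refine pow_le_pow_left₀ ?_ h k
  exact intervalIntegral.integral_nonneg (by linarith) fun x _ => h0 x

lemma ZB (hV : S_VL) (hc : S_CTS) (hk : 1 ≤ k) {θ ε : ℝ} (hθ : 1 ≤ θ) (hε : 0 < ε) :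
    ∃ C : ℝ, 0 < C ∧ ∀ (s : ℤ) (X : ℝ), 2 ≤ X →
      ∫⁻ β : Fin k → ℝ, ENNReal.ofReal (ZZ s X β) ∂(mS k (X ^ θ)) ≤ ENNReal.ofReal (C * X ^ (1 + k * θ + ε)) := by
  have hk0 : (0 : ℝ) < k := by exact_mod_cast hk
  have hθ0 : 0 < θ := by linarith
  obtain ⟨CV, hCV, hV⟩ := hV (ε / (k * θ)) (by positivity)
  refine ⟨CV ^ k, by positivity, ?_⟩
  intro s X hX
  have hX0 : 0 < X := by linarith
  have hX1 : 1 ≤ X := by linarith
  set A : ℝ := X ^ θ with hA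
  have hXA : X ≤ A := by
    rw [hA]
    calc X = X ^ (1 : ℝ) := (Real.rpow_one X).symm
      _ ≤ X ^ θ := Real.rpow_le_rpow_of_exponent_le hX1 hθ
  have hA0 : 0 < A := by linarith
  have e1 : ∀ β : Fin k → ℝ, ENNReal.ofReal (ZZ s X β) =
      ∑ q ∈ Q s X, ENNReal.ofReal (∏ j, ‖LL s q (pt (β j))‖ ^ 2) := by
    intro β
    unfold ZZ
    exact ENNReal.ofReal_sum_of_nonneg fun q _ => Finset.prod_nonneg fun j _ => by positivity
  simp_rw [e1]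
  rw [lintegral_finset_sum']
  swap
  · intro q hq
    refine (Continuous.measurable ?_).ennreal_ofReal.aemeasurable
    exact continuous_finset_prod _ fun j _ => (((hc s q (Q_is hq).1).comp (continuous_apply j)).norm).pow 2
  have e2 : ∀ q ∈ Q s X, ∫⁻ β : Fin k → ℝ, ENNReal.ofReal (∏ j, ‖LL s q (pt (β j))‖ ^ 2) ∂(mS k A) ≤
      ENNReal.ofReal ((CV * A ^ (1 + ε / (k * θ))) ^ k) := by
    intro q hq
    exact lint_pow (k := k) (f := fun x => ‖LL s q (pt x)‖ ^ 2) hA0 (((hc s q (Q_is hq).1).norm).pow 2)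
      (fun x => by positivity) (hV s q A (Q_is hq).1 (by linarith [(Q_is hq).2]) (by linarith)).1
  refine (Finset.sum_le_sum e2).trans ?_
  rw [Finset.sum_const, nsmul_eq_mul, ← ENNReal.ofReal_natCast, ← ENNReal.ofReal_mul (by positivity)]
  apply ENNReal.ofReal_le_ofReal
  have e3 : ((CV * A ^ (1 + ε / (k * θ))) ^ k : ℝ) = CV ^ k * X ^ (k * θ + ε) := by
    rw [mul_pow, hA, ← Real.rpow_natCast (((X ^ θ) ^ (1 + ε / (k * θ)))), ← Real.rpow_mul hX0.le,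
      ← Real.rpow_mul hX0.le]
    congr 2
    field_simp
  rw [e3]
  calc ((Q s X).card : ℝ) * (CV ^ k * X ^ (k * θ + ε)) ≤ X * (CV ^ k * X ^ (k * θ + ε)) := by
        have := Q_card (s := s) hX1
        gcongr
    _ = CV ^ k * X ^ (1 + k * θ + ε) := by
        have : X * X ^ (k * θ + ε) = X ^ (1 + k * θ + ε) := by
          nth_rewrite 1 [← Real.rpow_one X]
          rw [← Real.rpow_add hX0]; congr 1; ring
        rw [← this]; ring

/-- the error -/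
def er (s : ℤ) (Y : ℝ) (β : Fin k → ℝ) : ℂ :=
  (∑ q ∈ Q s Y, ∏ j, LL s q (pt (β j))) - ((c0 * Y : ℝ) : ℂ) * MT (im β)

/-- between two grid points -/
lemma gap {s : ℤ} {X Y Y1 Y2 T W : ℝ} {β : Fin k → ℝ} (h0 : 0 ≤ Y1) (h1 : Y1 ≤ Y) (h2 : Y ≤ Y2) (h3 : Y2 ≤ X)
    (e1 : ‖er s Y1 β‖ ≤ T) (e2 : ‖er s Y2 β‖ ≤ T)
    (hW : (Y2 - Y1 + 1) * ZZ s X β ≤ W ^ 2) (hW0 : 0 ≤ W) : ‖er s Y β‖ ≤ 3 * T + 2 * W := by
  classical
  -- sums over gaps
  have key : ∀ Z1 Z2 : ℝ, Y1 ≤ Z1 → Z1 ≤ Z2 → Z2 ≤ Y2 →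
      ‖(∑ q ∈ Q s Z2, ∏ j, LL s q (pt (β j))) - ∑ q ∈ Q s Z1, ∏ j, LL s q (pt (β j))‖ ≤ W := by
    intro Z1 Z2 a1 a2 a3
    have hs : (∑ q ∈ Q s Z2, ∏ j, LL s q (pt (β j))) - ∑ q ∈ Q s Z1, ∏ j, LL s q (pt (β j)) =
        ∑ q ∈ Q s Z2 \ Q s Z1, ∏ j, LL s q (pt (β j)) := by
      rw [← Finset.sum_sdiff (Q_mono a2)]
      ring
    rw [hs]
    refine abs_le_of_sq_le_sq' ?_ hW0 |>.2
    refine le_trans ?_ hW
    have b1 : ‖∑ q ∈ Q s Z2 \ Q s Z1, ∏ j, LL s q (pt (β j))‖ ≤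
        ∑ q ∈ Q s Z2 \ Q s Z1, ∏ j, ‖LL s q (pt (β j))‖ := by
      refine (norm_sum_le _ _).trans (le_of_eq ?_)
      exact Finset.sum_congr rfl fun q _ => norm_prod _ _
    have b2 : (∑ q ∈ Q s Z2 \ Q s Z1, ∏ j, ‖LL s q (pt (β j))‖) ^ 2 ≤
        ((Q s Z2 \ Q s Z1).card : ℝ) * ∑ q ∈ Q s Z2 \ Q s Z1, (∏ j, ‖LL s q (pt (β j))‖) ^ 2 :=
      sq_sum_le_card_mul_sum_sq
    have b3 : ∑ q ∈ Q s Z2 \ Q s Z1, (∏ j, ‖LL s q (pt (β j))‖) ^ 2 ≤ ZZ s X β := by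
      unfold ZZ
      have b4 : ∑ q ∈ Q s Z2 \ Q s Z1, (∏ j, ‖LL s q (pt (β j))‖) ^ 2 =
          ∑ q ∈ Q s Z2 \ Q s Z1, ∏ j, ‖LL s q (pt (β j))‖ ^ 2 :=
        Finset.sum_congr rfl fun q _ => (Finset.prod_pow _ _ _).symm
      rw [b4]
      refine Finset.sum_le_sum_of_subset_of_nonneg ?_ fun q _ _ => Finset.prod_nonneg fun j _ => by positivity
      exact Finset.sdiff_subset.trans (Q_mono (a3.trans h3))
    have b5 : ((Q s Z2 \ Q s Z1).card : ℝ) ≤ Y2 - Y1 + 1 :=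
      (Q_gap (h0.trans a1) a2).trans (by linarith)
    calc ‖∑ q ∈ Q s Z2 \ Q s Z1, ∏ j, LL s q (pt (β j))‖ ^ 2
        ≤ (∑ q ∈ Q s Z2 \ Q s Z1, ∏ j, ‖LL s q (pt (β j))‖) ^ 2 := pow_le_pow_left₀ (norm_nonneg _) b1 2
      _ ≤ _ := b2
      _ ≤ (Y2 - Y1 + 1) * ZZ s X β := mul_le_mul b5 b3 (Finset.sum_nonneg fun q _ => by positivity)
          (by linarith)
  have c1 := key Y Y2 h1 h2 le_rfl
  have c2 := key Y1 Y2 le_rfl (h1.trans h2) le_rfl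
  have hc0 : 0 < c0 := by unfold c0; positivity
  set S : ℝ → ℂ := fun Z => ∑ q ∈ Q s Z, ∏ j, LL s q (pt (β j)) with hS
  have d1 : ‖((c0 * (Y2 - Y1) : ℝ) : ℂ) * MT (im β)‖ ≤ W + 2 * T := by
    have e : ((c0 * (Y2 - Y1) : ℝ) : ℂ) * MT (im β) = (S Y2 - S Y1) - er s Y2 β + er s Y1 β := by
      simp only [hS, er]
      push_cast
      ring
    rw [e]
    have f1 := norm_add_le ((S Y2 - S Y1) - er s Y2 β) (er s Y1 β)
    have f2 := norm_sub_le (S Y2 - S Y1) (er s Y2 β)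
    have f3 : ‖S Y2 - S Y1‖ ≤ W := c2
    linarith
  have d2 : ‖((c0 * (Y2 - Y) : ℝ) : ℂ) * MT (im β)‖ ≤ W + 2 * T := by
    refine le_trans ?_ d1
    rw [norm_mul, norm_mul, Complex.norm_real, Complex.norm_real]
    refine mul_le_mul_of_nonneg_right ?_ (norm_nonneg _)
    rw [Real.norm_of_nonneg (by have : 0 ≤ Y2 - Y := by linarith
                                positivity),
      Real.norm_of_nonneg (by have : 0 ≤ Y2 - Y1 := by linarith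
                              positivity)]
    exact mul_le_mul_of_nonneg_left (by linarith) hc0.le
  have e : er s Y β = er s Y2 β - (S Y2 - S Y) + ((c0 * (Y2 - Y) : ℝ) : ℂ) * MT (im β) := by
    simp only [hS, er]
    push_cast
    ring
  rw [e]
  have f1 := norm_add_le (er s Y2 β - (S Y2 - S Y)) (((c0 * (Y2 - Y) : ℝ) : ℂ) * MT (im β))
  have f2 := norm_sub_le (er s Y2 β) (S Y2 - S Y)
  have f3 : ‖S Y2 - S Y‖ ≤ W := c1
  linarith

end

end Pool.Agent.L5helper84.QMU
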